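import Mathlib

/-!
Hajos constructions with critical inputs to the join.

Working definitions and the combinatorial core.
-/

set_option autoImplicit false

namespace Pool.Agent.H58.Hajos

open Classical

variable {α β γ : Type}

/-- colourable with `q` colours, by a plain function. -/
def Col (q : ℕ) (G : SimpleGraph α) : Prop :=
  ∃ c : α → Fin q, ∀ u v, G.Adj u v → c u ≠ c v

/-- `(q+1)`-critical, in elementary terms. -/
structure Crit (q : ℕ) (G : SimpleGraph α) : Prop where
  nc : ¬ Col q G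
  ec : ∀ s t, G.Adj s t →
    ∃ c : α → Fin q, ∀ u v, G.Adj u v → s(u, v) ≠ s(s, t) → c u ≠ c v
  iso : ∀ v, ∃ u, G.Adj v u

/-- The Dirac-Ore composition: delete the edge `ab` of `X`, split the vertex `w` of `Y`
into `a` (keeping the neighbours outside `B`) and `b` (keeping the neighbours in `B`). -/
def comp (X : SimpleGraph α) (a b : α) (Y : SimpleGraph β) (w : β) (B : Set β) :
    SimpleGraph (α ⊕ {u : β // u ≠ w}) where
  Adj p r := match p, r with
    | Sum.inl p, Sum.inl r => X.Adj p r ∧ s(p, r) ≠ s(a, b)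
    | Sum.inr u, Sum.inr v => Y.Adj u.1 v.1
    | Sum.inl p, Sum.inr u => Y.Adj w u.1 ∧ ((p = a ∧ u.1 ∉ B) ∨ (p = b ∧ u.1 ∈ B))
    | Sum.inr u, Sum.inl p => Y.Adj w u.1 ∧ ((p = a ∧ u.1 ∉ B) ∨ (p = b ∧ u.1 ∈ B))
  symm := ⟨by
    rintro (p | u) (r | v) h
    · exact ⟨h.1.symm, by rw [Sym2.eq_swap]; exact h.2⟩
    · exact h
    · exact h
    · exact h.symm⟩
  loopless := ⟨by
    rintro (p | u) h
    · exact X.loopless.irrefl p h.1
    · exact Y.loopless.irrefl u.1 h⟩

section compAdj
variable (X : SimpleGraph α) (a b : α) (Y : SimpleGraph β) (w : β) (B : Set β)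

theorem comp_ll (p r : α) : (comp X a b Y w B).Adj (Sum.inl p) (Sum.inl r) ↔
    X.Adj p r ∧ s(p, r) ≠ s(a, b) := Iff.rfl

theorem comp_rr (u v : {u : β // u ≠ w}) : (comp X a b Y w B).Adj (Sum.inr u) (Sum.inr v) ↔
    Y.Adj u.1 v.1 := Iff.rfl

theorem comp_lr (p : α) (u : {u : β // u ≠ w}) :
    (comp X a b Y w B).Adj (Sum.inl p) (Sum.inr u) ↔
    Y.Adj w u.1 ∧ ((p = a ∧ u.1 ∉ B) ∨ (p = b ∧ u.1 ∈ B)) := Iff.rfl

theorem comp_rl (p : α) (u : {u : β // u ≠ w}) :
    (comp X a b Y w B).Adj (Sum.inr u) (Sum.inl p) ↔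
    Y.Adj w u.1 ∧ ((p = a ∧ u.1 ∉ B) ∨ (p = b ∧ u.1 ∈ B)) := Iff.rfl

end compAdj

theorem exists_perm {q : ℕ} {x y x' y' : Fin q} (h : x ≠ y) (h' : x' ≠ y') :
    ∃ σ : Equiv.Perm (Fin q), σ x = x' ∧ σ y = y' := by
  refine ⟨Equiv.swap (Equiv.swap x x' y) y' * Equiv.swap x x', ?_, ?_⟩
  · have h1 : Equiv.swap x x' y ≠ x' := by
      intro h2
      have : Equiv.swap x x' y = Equiv.swap x x' x := by rw [h2, Equiv.swap_apply_left]
      exact h ((Equiv.swap x x').injective this).symm
    rw [Equiv.Perm.mul_apply, Equiv.swap_apply_left]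
    exact Equiv.swap_apply_of_ne_of_ne h1.symm h'
  · rw [Equiv.Perm.mul_apply, Equiv.swap_apply_left]

theorem exists_perm1 {q : ℕ} (x x' : Fin q) : ∃ σ : Equiv.Perm (Fin q), σ x = x' :=
  ⟨Equiv.swap x x', Equiv.swap_apply_left _ _⟩

/-- It suffices to check a colouring of the composition on three kinds of pairs. -/
theorem comp_col_aux {q : ℕ} {X : SimpleGraph α} {a b : α} {Y : SimpleGraph β} {w : β} {B : Set β}
    (c : α ⊕ {u : β // u ≠ w} → Fin q) (e : Sym2 (α ⊕ {u : β // u ≠ w}))
    (hll : ∀ p r, (comp X a b Y w B).Adj (Sum.inl p) (Sum.inl r) →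
      s(Sum.inl p, Sum.inl r) ≠ e → c (Sum.inl p) ≠ c (Sum.inl r))
    (hrr : ∀ u v, (comp X a b Y w B).Adj (Sum.inr u) (Sum.inr v) →
      s(Sum.inr u, Sum.inr v) ≠ e → c (Sum.inr u) ≠ c (Sum.inr v))
    (hlr : ∀ p u, (comp X a b Y w B).Adj (Sum.inl p) (Sum.inr u) →
      s(Sum.inl p, Sum.inr u) ≠ e → c (Sum.inl p) ≠ c (Sum.inr u)) :
    ∀ x y, (comp X a b Y w B).Adj x y → s(x, y) ≠ e → c x ≠ c y := by
  rintro (p | u) (r | v) h he
  · exact hll p r h he
  · exact hlr p v h he
  · exact (hlr r u h.symm (by rw [Sym2.eq_swap]; exact he)).symm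
  · exact hrr u v h he

theorem comp_crit {q : ℕ} {X : SimpleGraph α} {a b : α} {Y : SimpleGraph β} {w : β} {B : Set β}
    (hX : Crit q X) (hY : Crit q Y) (hab : X.Adj a b)
    (hs : ∃ (c : β → Fin q) (d : Fin q),
      (∀ u v, Y.Adj u v → u ≠ w → v ≠ w → c u ≠ c v) ∧
      (∀ z, Y.Adj w z → z ∉ B → c w ≠ c z) ∧ (∀ z, Y.Adj w z → z ∈ B → d ≠ c z)) :
    Crit q (comp X a b Y w B) := by
  obtain ⟨c, d, h1, h2, h3⟩ := hs
  have hne : a ≠ b := hab.ne
  -- both parts of the split are nonempty and the colours differ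
  have hB : ∃ z, Y.Adj w z ∧ z ∈ B := by
    by_contra hcon
    push Not at hcon
    apply hY.nc
    refine ⟨c, ?_⟩
    intro u v huv
    by_cases hu : u = w
    · subst hu
      exact h2 v huv (hcon v huv)
    · by_cases hv : v = w
      · subst hv
        exact (h2 u huv.symm (hcon u huv.symm)).symm
      · exact h1 u v huv hu hv
  have hA : ∃ z, Y.Adj w z ∧ z ∉ B := by
    by_contra hcon
    push Not at hcon
    apply hY.nc
    refine ⟨fun u => if u = w then d else c u, ?_⟩
    intro u v huv
    by_cases hu : u = w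
    · subst hu
      have hv : v ≠ u := huv.ne'
      simp only [if_true, if_neg hv]
      exact h3 v huv (hcon v huv)
    · by_cases hv : v = w
      · subst hv
        simp only [if_true, if_neg hu]
        exact (h3 u huv.symm (hcon u huv.symm)).symm
      · simp only [if_neg hu, if_neg hv]
        exact h1 u v huv hu hv
  have hcd : c w ≠ d := by
    intro hcd
    apply hY.nc
    refine ⟨c, ?_⟩
    have key : ∀ v, Y.Adj w v → c w ≠ c v := by
      intro v hv
      by_cases hvB : v ∈ B
      · rw [hcd]; exact h3 v hv hvB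
      · exact h2 v hv hvB
    intro u v huv
    by_cases hu : u = w
    · subst hu; exact key v huv
    · by_cases hv : v = w
      · subst hv; exact (key u huv.symm).symm
      · exact h1 u v huv hu hv
  -- colouring of `X` minus `ab`
  obtain ⟨cX, hcX⟩ := hX.ec a b hab
  have hcXab : cX a = cX b := by
    by_contra hcon
    apply hX.nc
    refine ⟨cX, ?_⟩
    intro u v huv
    by_cases he : s(u, v) = s(a, b)
    · rw [Sym2.eq_iff] at he
      rcases he with ⟨rfl, rfl⟩ | ⟨rfl, rfl⟩
      · exact hcon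
      · exact fun h => hcon h.symm
    · exact hcX u v huv he
  -- colourings of the composition obtained from an edge of `Y`
  have fromY : ∀ (c2 : β → Fin q) (s t : β),
      (∀ u v, Y.Adj u v → s(u, v) ≠ s(s, t) → c2 u ≠ c2 v) →
      ∃ c' : α ⊕ {u : β // u ≠ w} → Fin q,
        (∀ p r, (comp X a b Y w B).Adj (Sum.inl p) (Sum.inl r) → c' (Sum.inl p) ≠ c' (Sum.inl r)) ∧
        (∀ u v : {u : β // u ≠ w}, Y.Adj u.1 v.1 → s(u.1, v.1) ≠ s(s, t) →
          c' (Sum.inr u) ≠ c' (Sum.inr v)) ∧
        (∀ p (u : {u : β // u ≠ w}), (comp X a b Y w B).Adj (Sum.inl p) (Sum.inr u) →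
          s(w, u.1) ≠ s(s, t) → c' (Sum.inl p) ≠ c' (Sum.inr u)) := by
    intro c2 s t hc2
    obtain ⟨σ, hσ⟩ := exists_perm1 (c2 w) (cX a)
    refine ⟨Sum.elim cX (fun u => σ (c2 u.1)), ?_, ?_, ?_⟩
    · intro p r h
      simp only [Sum.elim_inl]
      exact hcX p r h.1 h.2
    · intro u v h he
      simp only [Sum.elim_inr]
      exact fun h' => hc2 _ _ h he (σ.injective h')
    · intro p u h he
      rw [comp_lr] at h
      simp only [Sum.elim_inl, Sum.elim_inr]
      have hp : cX p = cX a := by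
        rcases h.2 with ⟨rfl, -⟩ | ⟨rfl, -⟩
        · rfl
        · exact hcXab.symm
      rw [hp, ← hσ]
      exact fun h' => hc2 _ _ h.1 he (σ.injective h')
  refine ⟨?_, ?_, ?_⟩
  · -- not colourable
    rintro ⟨c', hc'⟩
    by_cases hcab : c' (Sum.inl a) = c' (Sum.inl b)
    · apply hY.nc
      refine ⟨fun u => if h : u = w then c' (Sum.inl a) else c' (Sum.inr ⟨u, h⟩), ?_⟩
      have key : ∀ v, (h : Y.Adj w v) → c' (Sum.inl a) ≠ c' (Sum.inr ⟨v, h.ne'⟩) := by
        intro v hv
        by_cases hvB : v ∈ B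
        · rw [hcab]
          exact hc' _ _ ((comp_lr X a b Y w B b ⟨v, hv.ne'⟩).2 ⟨hv, Or.inr ⟨rfl, hvB⟩⟩)
        · exact hc' _ _ ((comp_lr X a b Y w B a ⟨v, hv.ne'⟩).2 ⟨hv, Or.inl ⟨rfl, hvB⟩⟩)
      intro u v huv
      by_cases hu : u = w
      · subst hu
        have hv : v ≠ u := huv.ne'
        simp only [dif_pos, dif_neg hv]
        exact key v huv
      · by_cases hv : v = w
        · subst hv
          simp only [dif_pos, dif_neg hu]
          exact (key u huv.symm).symm
        · simp only [dif_neg hu, dif_neg hv]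
          exact hc' _ _ ((comp_rr X a b Y w B ⟨u, hu⟩ ⟨v, hv⟩).2 huv)
    · apply hX.nc
      refine ⟨fun p => c' (Sum.inl p), ?_⟩
      intro u v huv
      by_cases he : s(u, v) = s(a, b)
      · rw [Sym2.eq_iff] at he
        rcases he with ⟨rfl, rfl⟩ | ⟨rfl, rfl⟩
        · exact hcab
        · exact fun h => hcab h.symm
      · exact hc' _ _ ((comp_ll X a b Y w B u v).2 ⟨huv, he⟩)
  · -- edge deletion
    have main : ∀ p r, (comp X a b Y w B).Adj (Sum.inl p) (Sum.inl r) →
        ∃ c' : α ⊕ {u : β // u ≠ w} → Fin q, ∀ x y, (comp X a b Y w B).Adj x y →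
          s(x, y) ≠ s(Sum.inl p, Sum.inl r) → c' x ≠ c' y := by
      intro p r hpr
      obtain ⟨c1, hc1⟩ := hX.ec p r hpr.1
      have hc1ab : c1 a ≠ c1 b := hc1 a b hab (fun h => hpr.2 h.symm)
      obtain ⟨σ, hσ1, hσ2⟩ := exists_perm hcd hc1ab
      refine ⟨Sum.elim c1 (fun u => σ (c u.1)), comp_col_aux _ _ ?_ ?_ ?_⟩
      · intro p' r' h he
        simp only [Sum.elim_inl]
        refine hc1 _ _ h.1 ?_
        intro h'
        apply he
        rw [Sym2.eq_iff] at h' ⊢
        rcases h' with ⟨rfl, rfl⟩ | ⟨rfl, rfl⟩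
        · exact Or.inl ⟨rfl, rfl⟩
        · exact Or.inr ⟨rfl, rfl⟩
      · intro u v h he
        simp only [Sum.elim_inr]
        exact fun h' => h1 _ _ h u.2 v.2 (σ.injective h')
      · intro p' u h he
        rw [comp_lr] at h
        simp only [Sum.elim_inl, Sum.elim_inr]
        rcases h with ⟨hw, ⟨rfl, hu⟩ | ⟨rfl, hu⟩⟩
        · rw [← hσ1]
          exact fun h' => h2 _ hw hu (σ.injective h')
        · rw [← hσ2]
          exact fun h' => h3 _ hw hu (σ.injective h')
    have main2 : ∀ p (z : {u : β // u ≠ w}), (comp X a b Y w B).Adj (Sum.inl p) (Sum.inr z) →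
        ∃ c' : α ⊕ {u : β // u ≠ w} → Fin q, ∀ x y, (comp X a b Y w B).Adj x y →
          s(x, y) ≠ s(Sum.inl p, Sum.inr z) → c' x ≠ c' y := by
      intro p z hpz
      rw [comp_lr] at hpz
      obtain ⟨c2, hc2⟩ := hY.ec w z.1 hpz.1
      obtain ⟨c', e1, e2, e3⟩ := fromY c2 w z.1 hc2
      refine ⟨c', comp_col_aux _ _ ?_ ?_ ?_⟩
      · intro p' r' h _
        exact e1 p' r' h
      · intro u v h _
        refine e2 u v h ?_
        intro h'
        rw [Sym2.eq_iff] at h'
        rcases h' with ⟨h', -⟩ | ⟨-, h'⟩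
        · exact u.2 h'
        · exact v.2 h'
      · intro p' u h he
        refine e3 p' u h ?_
        intro h'
        apply he
        rw [comp_lr] at h
        have huz : u = z := by
          rw [Sym2.eq_iff] at h'
          rcases h' with ⟨-, h'⟩ | ⟨h', -⟩
          · exact Subtype.ext h'
          · exact absurd h'.symm z.2
        subst huz
        have : p' = p := by
          rcases h.2 with ⟨rfl, hu⟩ | ⟨rfl, hu⟩
          · rcases hpz.2 with ⟨rfl, hu'⟩ | ⟨rfl, hu'⟩
            · rfl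
            · exact absurd hu' hu
          · rcases hpz.2 with ⟨rfl, hu'⟩ | ⟨rfl, hu'⟩
            · exact absurd hu hu'
            · rfl
        rw [this]
    rintro (p | u) (r | v) h
    · exact main p r h
    · exact main2 p v h
    · obtain ⟨c', hc'⟩ := main2 r u h.symm
      refine ⟨c', fun x y hxy he => hc' x y hxy ?_⟩
      rw [Sym2.eq_swap (a := Sum.inl r)]
      exact he
    · rw [comp_rr] at h
      obtain ⟨c2, hc2⟩ := hY.ec u.1 v.1 h
      obtain ⟨c', e1, e2, e3⟩ := fromY c2 u.1 v.1 hc2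
      refine ⟨c', comp_col_aux _ _ ?_ ?_ ?_⟩
      · intro p' r' h _
        exact e1 p' r' h
      · intro u' v' h' he
        refine e2 u' v' h' ?_
        intro h''
        apply he
        rw [Sym2.eq_iff] at h'' ⊢
        rcases h'' with ⟨h5, h6⟩ | ⟨h5, h6⟩
        · left; exact ⟨congrArg _ (Subtype.ext h5), congrArg _ (Subtype.ext h6)⟩
        · right; exact ⟨congrArg _ (Subtype.ext h5), congrArg _ (Subtype.ext h6)⟩
      · intro p' u' h' he
        refine e3 p' u' h' ?_
        intro h''
        rw [Sym2.eq_iff] at h''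
        rcases h'' with ⟨h5, -⟩ | ⟨h5, -⟩
        · exact u.2 h5.symm
        · exact v.2 h5.symm
  · -- no isolated vertices
    rintro (p | u)
    · by_cases hpa : p = a
      · subst hpa
        obtain ⟨z, hz, hzB⟩ := hA
        exact ⟨Sum.inr ⟨z, hz.ne'⟩, hz, Or.inl ⟨rfl, hzB⟩⟩
      · by_cases hpb : p = b
        · subst hpb
          obtain ⟨z, hz, hzB⟩ := hB
          exact ⟨Sum.inr ⟨z, hz.ne'⟩, hz, Or.inr ⟨rfl, hzB⟩⟩
        · obtain ⟨u, hu⟩ := hX.iso p
          refine ⟨Sum.inl u, hu, ?_⟩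
          intro h
          rw [Sym2.eq_iff] at h
          rcases h with ⟨h, -⟩ | ⟨h, -⟩
          · exact hpa h
          · exact hpb h
    · obtain ⟨v, hv⟩ := hY.iso u.1
      by_cases hvw : v = w
      · subst hvw
        by_cases huB : u.1 ∈ B
        · exact ⟨Sum.inl b, hv.symm, Or.inr ⟨rfl, huB⟩⟩
        · exact ⟨Sum.inl a, hv.symm, Or.inl ⟨rfl, huB⟩⟩
      · exact ⟨Sum.inr ⟨v, hvw⟩, hv⟩

/-- A homomorphism from a non-`q`-colourable graph to a critical graph is onto, on vertices and
on edges. -/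
theorem hom_edge_surj {q : ℕ} {X : SimpleGraph α} {G : SimpleGraph β} (hX : ¬ Col q X)
    (hG : Crit q G) (φ : α → β) (hφ : ∀ u v, X.Adj u v → G.Adj (φ u) (φ v)) :
    ∀ z w, G.Adj z w → ∃ p r, X.Adj p r ∧ φ p = z ∧ φ r = w := by
  intro z w hzw
  by_contra hcon
  push Not at hcon
  obtain ⟨c, hc⟩ := hG.ec z w hzw
  apply hX
  refine ⟨fun u => c (φ u), ?_⟩
  intro u v huv
  refine hc _ _ (hφ u v huv) ?_
  intro h
  rw [Sym2.eq_iff] at h
  rcases h with ⟨h1, h2⟩ | ⟨h1, h2⟩
  · exact hcon u v huv h1 h2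
  · exact hcon v u huv.symm h2 h1

theorem hom_surj {q : ℕ} {X : SimpleGraph α} {G : SimpleGraph β} (hX : ¬ Col q X)
    (hG : Crit q G) (φ : α → β) (hφ : ∀ u v, X.Adj u v → G.Adj (φ u) (φ v)) :
    Function.Surjective φ := by
  intro z
  obtain ⟨w, hw⟩ := hG.iso z
  obtain ⟨p, r, -, hp, -⟩ := hom_edge_surj hX hG φ hφ z w hw
  exact ⟨p, hp⟩

/-! ### Constructibility -/

/-- Closure properties of a class of graphs on the types `Fin n`: it contains the complete graph
on `q+1` vertices and is closed under isomorphism, Hajos joins of critical members and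
identification of two non-adjacent vertices. -/
structure Closed (q : ℕ) (C : (n : ℕ) → SimpleGraph (Fin n) → Prop) : Prop where
  base : C (q + 1) (⊤ : SimpleGraph (Fin (q + 1)))
  iso : ∀ (n m : ℕ) (G : SimpleGraph (Fin n)) (H : SimpleGraph (Fin m)),
    C n G → Nonempty (G ≃g H) → C m H
  join : ∀ (a b m : ℕ) (G1 : SimpleGraph (Fin a)) (G2 : SimpleGraph (Fin b))
    (H : SimpleGraph (Fin m)) (x1 y1 : Fin a) (x2 y2 : Fin b)
    (f1 : Fin a → Fin m) (f2 : Fin b → Fin m),
    C a G1 → C b G2 → Crit q G1 → Crit q G2 →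
    G1.Adj x1 y1 → G2.Adj x2 y2 →
    Function.Injective f1 → Function.Injective f2 →
    f1 x1 = f2 x2 →
    (∀ p q, f1 p = f2 q → p = x1 ∧ q = x2) →
    (∀ z, (∃ p, f1 p = z) ∨ (∃ q, f2 q = z)) →
    (∀ z w, H.Adj z w ↔
      ((∃ p q, G1.Adj p q ∧ s(p, q) ≠ s(x1, y1) ∧ f1 p = z ∧ f1 q = w) ∨
       (∃ p q, G2.Adj p q ∧ s(p, q) ≠ s(x2, y2) ∧ f2 p = z ∧ f2 q = w) ∨
       (z = f1 y1 ∧ w = f2 y2) ∨ (z = f2 y2 ∧ w = f1 y1))) →
    C m H
  ident : ∀ (n m : ℕ) (G : SimpleGraph (Fin n)) (H : SimpleGraph (Fin m))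
    (u v : Fin n) (f : Fin n → Fin m),
    C n G → u ≠ v → ¬ G.Adj u v → Function.Surjective f → f u = f v →
    (∀ a b, f a = f b → a = b ∨ (a = u ∧ b = v) ∨ (a = v ∧ b = u)) →
    (∀ z w, H.Adj z w ↔ ∃ p q, G.Adj p q ∧ f p = z ∧ f q = w) →
    C m H

/-- constructible, for graphs on arbitrary vertex types. -/
def Cons (C : (n : ℕ) → SimpleGraph (Fin n) → Prop) (G : SimpleGraph α) : Prop :=
  ∃ (n : ℕ) (H : SimpleGraph (Fin n)), C n H ∧ Nonempty (H ≃g G)

theorem Crit.of_iso {q : ℕ} {G : SimpleGraph α} {H : SimpleGraph β} (e : G ≃g H)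
    (h : Crit q G) : Crit q H := by
  refine ⟨?_, ?_, ?_⟩
  · rintro ⟨c, hc⟩
    exact h.nc ⟨fun u => c (e u), fun u v huv => hc _ _ (e.map_rel_iff.2 huv)⟩
  · intro s t hst
    obtain ⟨c, hc⟩ := h.ec (e.symm s) (e.symm t) (e.symm.map_rel_iff.2 hst)
    refine ⟨fun u => c (e.symm u), fun u v huv he => hc _ _ (e.symm.map_rel_iff.2 huv) ?_⟩
    intro h'
    apply he
    rw [Sym2.eq_iff] at h' ⊢
    rcases h' with ⟨h1, h2⟩ | ⟨h1, h2⟩
    · exact Or.inl ⟨e.symm.injective h1, e.symm.injective h2⟩
    · exact Or.inr ⟨e.symm.injective h1, e.symm.injective h2⟩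
  · intro v
    obtain ⟨u, hu⟩ := h.iso (e.symm v)
    refine ⟨e u, ?_⟩
    have := e.map_rel_iff.2 hu
    simpa using this

variable {q : ℕ} {C : (n : ℕ) → SimpleGraph (Fin n) → Prop}

theorem Cons.of_iso {G : SimpleGraph α} {H : SimpleGraph β} (h : Cons C G) (e : G ≃g H) :
    Cons C H := by
  obtain ⟨n, K, hK, ⟨f⟩⟩ := h
  exact ⟨n, K, hK, ⟨f.trans e⟩⟩

theorem Cons.to_fin (hC : Closed q C) {n : ℕ} {G : SimpleGraph (Fin n)} (h : Cons C G) :
    C n G := by
  obtain ⟨m, K, hK, hf⟩ := h
  exact hC.iso m n K G hK hf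

/-- one identification. -/
theorem Cons.ident (hC : Closed q C) [Finite β] {X : SimpleGraph α} {G : SimpleGraph β}
    (u v : α) (f : α → β) (hX : Cons C X) (huv : u ≠ v) (hn : ¬ X.Adj u v)
    (hf : Function.Surjective f) (hfuv : f u = f v)
    (hinj : ∀ a b, f a = f b → a = b ∨ (a = u ∧ b = v) ∨ (a = v ∧ b = u))
    (hG : ∀ z w, G.Adj z w ↔ ∃ p r, X.Adj p r ∧ f p = z ∧ f r = w) : Cons C G := by
  obtain ⟨n, K, hK, ⟨e⟩⟩ := hX
  obtain ⟨m, ⟨e'⟩⟩ := Finite.exists_equiv_fin β
  refine ⟨m, G.comap e'.symm, ?_, ⟨SimpleGraph.Iso.comap e'.symm G⟩⟩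
  refine hC.ident n m K _ (e.symm u) (e.symm v) (fun p => e' (f (e p))) hK ?_ ?_ ?_ ?_ ?_ ?_
  · exact fun h => huv (e.symm.injective h)
  · intro h
    apply hn
    have := e.map_rel_iff.2 h
    simpa using this
  · exact e'.surjective.comp (hf.comp e.surjective)
  · simp [hfuv]
  · intro p r h
    have h' : f (e p) = f (e r) := e'.injective h
    rcases hinj _ _ h' with h1 | ⟨h1, h2⟩ | ⟨h1, h2⟩
    · exact Or.inl (e.injective h1)
    · right; left
      constructor
      · rw [← h1]; simp
      · rw [← h2]; simp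
    · right; right
      constructor
      · rw [← h1]; simp
      · rw [← h2]; simp
  · intro z w
    rw [SimpleGraph.comap_adj, hG]
    constructor
    · rintro ⟨p, r, hpr, h1, h2⟩
      refine ⟨e.symm p, e.symm r, e.symm.map_rel_iff.2 hpr, ?_, ?_⟩
      · simp [h1]
      · simp [h2]
    · rintro ⟨p, r, hpr, h1, h2⟩
      refine ⟨e p, e r, e.map_rel_iff.2 hpr, ?_, ?_⟩
      · rw [← h1]; simp
      · rw [← h2]; simp

/-- Quotients: a surjective (on vertices and edges) image of a constructible graph is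
constructible. -/
theorem Cons.quot (hC : Closed q C) : ∀ (n : ℕ) (α : Type) [Finite α] (β : Type) [Finite β]
    (X : SimpleGraph α) (G : SimpleGraph β) (f : α → β), Nat.card α = n → Cons C X →
    Function.Surjective f → (∀ z w, G.Adj z w ↔ ∃ p r, X.Adj p r ∧ f p = z ∧ f r = w) →
    Cons C G := by
  intro n
  induction n using Nat.strong_induction_on with
  | _ n ih =>
    intro α _ β _ X G f hn hX hf hG
    by_cases hinj : Function.Injective f
    · refine hX.of_iso ⟨Equiv.ofBijective f ⟨hinj, hf⟩, ?_⟩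
      intro u v
      simp only [Equiv.ofBijective_apply]
      rw [hG]
      constructor
      · rintro ⟨p, r, hpr, h1, h2⟩
        rw [← hinj h1, ← hinj h2]
        exact hpr
      · intro h
        exact ⟨u, v, h, rfl, rfl⟩
    · rw [Function.Injective] at hinj
      push Not at hinj
      obtain ⟨u, v, hfuv, huv⟩ := hinj
      have hnadj : ¬ X.Adj u v := by
        intro h
        have := (hG (f u) (f v)).2 ⟨u, v, h, rfl, rfl⟩
        rw [hfuv] at this
        exact G.loopless.irrefl _ this
      let g : α → {p : α // p ≠ v} := fun p => if h : p = v then ⟨u, huv⟩ else ⟨p, h⟩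
      have hgv : g v = ⟨u, huv⟩ := by simp [g]
      have hgp : ∀ p (h : p ≠ v), g p = ⟨p, h⟩ := by
        intro p h; simp [g, h]
      have hfg : ∀ p, f (g p).1 = f p := by
        intro p
        by_cases h : p = v
        · rw [h, hgv]; exact hfuv
        · rw [hgp p h]
      let X' : SimpleGraph {p : α // p ≠ v} :=
        { Adj := fun z w => ∃ p r, X.Adj p r ∧ g p = z ∧ g r = w
          symm := ⟨fun z w ⟨p, r, h, h1, h2⟩ => ⟨r, p, h.symm, h2, h1⟩⟩
          loopless := ⟨by
            rintro z ⟨p, r, h, h1, h2⟩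
            have h3 : f p = f r := by rw [← hfg p, ← hfg r, h1, h2]
            have h4 := (hG (f p) (f r)).2 ⟨p, r, h, rfl, rfl⟩
            rw [h3] at h4
            exact G.loopless.irrefl _ h4⟩ }
      have hX' : Cons C X' := by
        refine Cons.ident hC u v g hX huv hnadj ?_ ?_ ?_ ?_
        · rintro ⟨p, hp⟩
          exact ⟨p, hgp p hp⟩
        · rw [hgv, hgp u huv]
        · intro p r h
          by_cases hp : p = v
          · by_cases hr : r = v
            · left; rw [hp, hr]
            · rw [hp, hgv, hgp r hr] at h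
              right; right
              exact ⟨hp, (congrArg Subtype.val h).symm⟩
          · by_cases hr : r = v
            · rw [hr, hgv, hgp p hp] at h
              right; left
              exact ⟨congrArg Subtype.val h, hr⟩
            · rw [hgp p hp, hgp r hr] at h
              left
              exact congrArg Subtype.val h
        · intro z w
          exact Iff.rfl
      refine ih (Nat.card {p : α // p ≠ v}) ?_ _ β X' G (fun p => f p.1) rfl hX' ?_ ?_
      · rw [← hn]
        exact Finite.card_subtype_lt (p := fun p => p ≠ v) (x := v) (by simp)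
      · intro z
        obtain ⟨p, hp⟩ := hf z
        exact ⟨g p, by simp only [hfg]; exact hp⟩
      · intro z w
        rw [hG]
        constructor
        · rintro ⟨p, r, h, h1, h2⟩
          exact ⟨g p, g r, ⟨p, r, h, rfl, rfl⟩, by simp only [hfg]; exact h1,
            by simp only [hfg]; exact h2⟩
        · rintro ⟨z', w', ⟨p, r, h, h1, h2⟩, h3, h4⟩
          refine ⟨p, r, h, ?_, ?_⟩
          · rw [← h3, ← h1, hfg]
          · rw [← h4, ← h2, hfg]

/-- A critical graph which receives a homomorphism from a constructible non-`q`-colourable graph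
is constructible. -/
theorem Cons.of_hom (hC : Closed q C) [Finite α] [Finite β] {X : SimpleGraph α}
    {G : SimpleGraph β} (hX : ¬ Col q X) (cX : Cons C X) (hG : Crit q G) (φ : α → β)
    (hφ : ∀ u v, X.Adj u v → G.Adj (φ u) (φ v)) : Cons C G := by
  refine Cons.quot hC _ α β X G φ rfl cX (hom_surj hX hG φ hφ) ?_
  intro z w
  constructor
  · exact hom_edge_surj hX hG φ hφ z w
  · rintro ⟨p, r, h, rfl, rfl⟩
    exact hφ p r h

/-! ### The Hajos join -/

/-- the map from the vertices of `Y` to the composition (`w` goes to `a`). -/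
noncomputable def jmap (a : α) (w : β) (u : β) : α ⊕ {u : β // u ≠ w} :=
  if h : u = w then Sum.inl a else Sum.inr ⟨u, h⟩

theorem jmap_self (a : α) (w : β) : jmap a w w = Sum.inl a := by simp [jmap]

theorem jmap_ne (a : α) (w u : β) (h : u ≠ w) : jmap a w u = Sum.inr ⟨u, h⟩ := by
  simp [jmap, h]

theorem jmap_inj (a : α) (w : β) : Function.Injective (jmap a w) := by
  intro u v h
  by_cases hu : u = w
  · by_cases hv : v = w
    · rw [hu, hv]
    · rw [hu, jmap_self, jmap_ne a w v hv] at h
      exact absurd h (by simp)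
  · by_cases hv : v = w
    · rw [hv, jmap_self, jmap_ne a w u hu] at h
      exact absurd h (by simp)
    · rw [jmap_ne a w u hu, jmap_ne a w v hv] at h
      exact congrArg Subtype.val (Sum.inr.inj h)

theorem comp_single_adj {X : SimpleGraph α} {a b : α} {Y : SimpleGraph β} {w z : β}
    (hwz : Y.Adj w z) (P R : α ⊕ {u : β // u ≠ w}) :
    (comp X a b Y w {z}).Adj P R ↔
      ((∃ p r, X.Adj p r ∧ s(p, r) ≠ s(a, b) ∧ Sum.inl p = P ∧ Sum.inl r = R) ∨
       (∃ p r, Y.Adj p r ∧ s(p, r) ≠ s(w, z) ∧ jmap a w p = P ∧ jmap a w r = R) ∨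
       (P = Sum.inl b ∧ R = jmap a w z) ∨ (P = jmap a w z ∧ R = Sum.inl b)) := by
  have hzw : z ≠ w := hwz.ne'
  have hj : ∀ u : {u : β // u ≠ w}, jmap a w u.1 = Sum.inr u := fun u => jmap_ne a w u.1 u.2
  constructor
  · rcases P with p | u <;> rcases R with r | v
    · intro h
      left
      exact ⟨p, r, h.1, h.2, rfl, rfl⟩
    · intro h
      rw [comp_lr] at h
      obtain ⟨h1, ⟨rfl, h2⟩ | ⟨rfl, h2⟩⟩ := h
      · right; left
        refine ⟨w, v.1, h1, ?_, jmap_self _ _, hj v⟩
        intro h3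
        rw [Sym2.eq_iff] at h3
        rcases h3 with ⟨-, h3⟩ | ⟨h3, -⟩
        · exact h2 h3
        · exact hzw h3.symm
      · right; right; left
        refine ⟨rfl, ?_⟩
        have h2' : v.1 = z := h2
        rw [← hj v, h2']
    · intro h
      rw [comp_rl] at h
      obtain ⟨h1, ⟨rfl, h2⟩ | ⟨rfl, h2⟩⟩ := h
      · right; left
        refine ⟨u.1, w, h1.symm, ?_, hj u, jmap_self _ _⟩
        intro h3
        rw [Sym2.eq_iff] at h3
        rcases h3 with ⟨h3, -⟩ | ⟨h3, -⟩
        · exact u.2 h3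
        · exact h2 h3
      · right; right; right
        refine ⟨?_, rfl⟩
        have h2' : u.1 = z := h2
        rw [← hj u, h2']
    · intro h
      rw [comp_rr] at h
      right; left
      refine ⟨u.1, v.1, h, ?_, hj u, hj v⟩
      intro h3
      rw [Sym2.eq_iff] at h3
      rcases h3 with ⟨h3, -⟩ | ⟨-, h3⟩
      · exact u.2 h3
      · exact v.2 h3
  · rintro (⟨p, r, h1, h2, rfl, rfl⟩ | ⟨p, r, h1, h2, rfl, rfl⟩ | ⟨rfl, rfl⟩ | ⟨rfl, rfl⟩)
    · exact ⟨h1, h2⟩
    · by_cases hp : p = w
      · have hr : r ≠ w := fun h => h1.ne (hp.trans h.symm)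
        subst hp
        rw [jmap_self, jmap_ne a p r hr, comp_lr]
        refine ⟨h1, Or.inl ⟨rfl, ?_⟩⟩
        intro h
        exact h2 (by rw [show r = z from h])
      · by_cases hr : r = w
        · subst hr
          rw [jmap_self, jmap_ne a r p hp, comp_rl]
          refine ⟨h1.symm, Or.inl ⟨rfl, ?_⟩⟩
          intro h
          exact h2 (by rw [show p = z from h, Sym2.eq_swap])
        · rw [jmap_ne a w p hp, jmap_ne a w r hr, comp_rr]
          exact h1
    · rw [jmap_ne a w z hzw, comp_lr]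
      exact ⟨hwz, Or.inr ⟨rfl, rfl⟩⟩
    · rw [jmap_ne a w z hzw, comp_rl]
      exact ⟨hwz, Or.inr ⟨rfl, rfl⟩⟩

/-- The Hajos join of critical constructible graphs is constructible. -/
theorem Cons.join (hC : Closed q C) [Finite α] [Finite β] {X : SimpleGraph α} {a b : α}
    {Y : SimpleGraph β} {w z : β} (hX : Crit q X) (hY : Crit q Y) (cX : Cons C X)
    (cY : Cons C Y) (hab : X.Adj a b) (hwz : Y.Adj w z) :
    Cons C (comp X a b Y w {z}) := by
  obtain ⟨n1, H1, hH1, ⟨e1⟩⟩ := cX
  obtain ⟨n2, H2, hH2, ⟨e2⟩⟩ := cY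
  obtain ⟨m, ⟨e⟩⟩ := Finite.exists_equiv_fin (α ⊕ {u : β // u ≠ w})
  refine ⟨m, (comp X a b Y w {z}).comap e.symm, ?_, ⟨SimpleGraph.Iso.comap e.symm _⟩⟩
  refine hC.join n1 n2 m H1 H2 _ (e1.symm a) (e1.symm b) (e2.symm w) (e2.symm z)
    (fun p => e (Sum.inl (e1 p))) (fun r => e (jmap a w (e2 r))) hH1 hH2
    (Crit.of_iso e1.symm hX) (Crit.of_iso e2.symm hY) (e1.symm.map_rel_iff.2 hab)
    (e2.symm.map_rel_iff.2 hwz) ?_ ?_ ?_ ?_ ?_ ?_
  · intro p r h
    exact e1.injective (Sum.inl.inj (e.injective h))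
  · intro p r h
    exact e2.injective (jmap_inj a w (e.injective h))
  · simp [jmap_self]
  · intro p r h
    have h' : Sum.inl (e1 p) = jmap a w (e2 r) := e.injective h
    by_cases hr : e2 r = w
    · rw [hr, jmap_self] at h'
      have h'' := Sum.inl.inj h'
      constructor
      · rw [← h'']; simp
      · rw [← hr]; simp
    · rw [jmap_ne a w _ hr] at h'
      exact absurd h' (by simp)
  · intro t
    rcases ht : e.symm t with p | u
    · left
      refine ⟨e1.symm p, ?_⟩
      have : e (Sum.inl p) = t := by rw [← ht]; simp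
      simpa using this
    · right
      refine ⟨e2.symm u.1, ?_⟩
      have : e (Sum.inr u) = t := by rw [← ht]; simp
      simp only [RelIso.apply_symm_apply]
      rw [jmap_ne a w u.1 u.2]
      exact this
  · intro t s
    rw [SimpleGraph.comap_adj, comp_single_adj hwz]
    constructor
    · rintro (⟨p, r, h1, h2, h3, h4⟩ | ⟨p, r, h1, h2, h3, h4⟩ | ⟨h3, h4⟩ | ⟨h3, h4⟩)
      · left
        refine ⟨e1.symm p, e1.symm r, e1.symm.map_rel_iff.2 h1, ?_, ?_, ?_⟩
        · intro h
          apply h2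
          rw [Sym2.eq_iff] at h ⊢
          rcases h with ⟨h5, h6⟩ | ⟨h5, h6⟩
          · exact Or.inl ⟨e1.symm.injective h5, e1.symm.injective h6⟩
          · exact Or.inr ⟨e1.symm.injective h5, e1.symm.injective h6⟩
        · simp [h3]
        · simp [h4]
      · right; left
        refine ⟨e2.symm p, e2.symm r, e2.symm.map_rel_iff.2 h1, ?_, ?_, ?_⟩
        · intro h
          apply h2
          rw [Sym2.eq_iff] at h ⊢
          rcases h with ⟨h5, h6⟩ | ⟨h5, h6⟩
          · exact Or.inl ⟨e2.symm.injective h5, e2.symm.injective h6⟩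
          · exact Or.inr ⟨e2.symm.injective h5, e2.symm.injective h6⟩
        · simp [h3]
        · simp [h4]
      · right; right; left
        constructor
        · have : t = e (Sum.inl b) := by rw [← h3]; simp
          simpa using this
        · have : s = e (jmap a w z) := by rw [← h4]; simp
          simpa using this
      · right; right; right
        constructor
        · have : t = e (jmap a w z) := by rw [← h3]; simp
          simpa using this
        · have : s = e (Sum.inl b) := by rw [← h4]; simp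
          simpa using this
    · rintro (⟨p, r, h1, h2, h3, h4⟩ | ⟨p, r, h1, h2, h3, h4⟩ | ⟨h3, h4⟩ | ⟨h3, h4⟩)
      · left
        refine ⟨e1 p, e1 r, e1.map_rel_iff.2 h1, ?_, ?_, ?_⟩
        · intro h
          apply h2
          rw [Sym2.eq_iff] at h ⊢
          rcases h with ⟨h5, h6⟩ | ⟨h5, h6⟩
          · left; rw [← h5, ← h6]; simp
          · right; rw [← h5, ← h6]; simp
        · rw [← h3]; simp
        · rw [← h4]; simp
      · right; left
        refine ⟨e2 p, e2 r, e2.map_rel_iff.2 h1, ?_, ?_, ?_⟩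
        · intro h
          apply h2
          rw [Sym2.eq_iff] at h ⊢
          rcases h with ⟨h5, h6⟩ | ⟨h5, h6⟩
          · left; rw [← h5, ← h6]; simp
          · right; rw [← h5, ← h6]; simp
        · rw [← h3]; simp
        · rw [← h4]; simp
      · right; right; left
        constructor
        · rw [h3]; simp
        · rw [h4]; simp
      · right; right; right
        constructor
        · rw [h3]; simp
        · rw [h4]; simp

/-! ### Elimination of bad pairs -/

/-- the adjacent pairs of `W` whose labels are not adjacent in `T`. -/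
def bad (W : SimpleGraph α) (T : SimpleGraph β) (l : α → β) : Set (α × α) :=
  {p | W.Adj p.1 p.2 ∧ ¬ T.Adj (l p.1) (l p.2)}

theorem mem_bad {W : SimpleGraph α} {T : SimpleGraph β} {l : α → β} {u v : α} :
    (u, v) ∈ bad W T l ↔ W.Adj u v ∧ ¬ T.Adj (l u) (l v) := Iff.rfl

theorem bad_symm {W : SimpleGraph α} {T : SimpleGraph β} {l : α → β} {u v : α}
    (h : (u, v) ∈ bad W T l) : (v, u) ∈ bad W T l :=
  ⟨h.1.symm, fun h' => h.2 h'.symm⟩

/-- the Hajos join of two critical graphs is critical. -/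
theorem join_crit (hq : 2 ≤ q) {X : SimpleGraph α} {a b : α} {Y : SimpleGraph β} {w z : β}
    (hX : Crit q X) (hY : Crit q Y) (hab : X.Adj a b) (hwz : Y.Adj w z) :
    Crit q (comp X a b Y w {z}) := by
  refine comp_crit hX hY hab ?_
  obtain ⟨c, hc⟩ := hY.ec w z hwz
  have hd : ∃ d : Fin q, d ≠ c z := by
    by_contra hcon
    push Not at hcon
    have h0 := hcon ⟨0, by omega⟩
    have h1 := hcon ⟨1, by omega⟩
    have := h0.trans h1.symm
    simp at this
  obtain ⟨d, hd⟩ := hd
  refine ⟨c, d, ?_, ?_, ?_⟩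
  · intro u v huv hu hv
    refine hc u v huv ?_
    intro h
    rw [Sym2.eq_iff] at h
    rcases h with ⟨h, -⟩ | ⟨-, h⟩
    · exact hu h
    · exact hv h
  · intro u hu huz
    refine hc w u hu ?_
    intro h
    rw [Sym2.eq_iff] at h
    rcases h with ⟨-, h⟩ | ⟨h, -⟩
    · exact huz h
    · exact hwz.ne h
  · intro u _ hu
    rw [show u = z from hu]
    exact hd

theorem elimJ (hC : Closed q C) (hq : 2 ≤ q) [Finite α] {X : SimpleGraph α} {a b : α}
    (hX : Crit q X) (cX : Cons C X) (hab : X.Adj a b) {T : SimpleGraph γ} (lX : α → γ)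
    (hlX : ∀ p r, X.Adj p r → s(p, r) ≠ s(a, b) → T.Adj (lX p) (lX r)) :
    ∀ (m : ℕ) (β : Type) [Finite β] (W : SimpleGraph β) (l : β → γ), Crit q W → Cons C W →
      (bad W T l).ncard ≤ m →
      (∀ u v, (u, v) ∈ bad W T l →
        (l u = lX a ∧ T.Adj (lX b) (l v)) ∨ (l v = lX a ∧ T.Adj (lX b) (l u))) →
      ∃ (δ : Type) (_ : Finite δ) (W' : SimpleGraph δ) (l' : δ → γ),
        Crit q W' ∧ Cons C W' ∧ ∀ u v, W'.Adj u v → T.Adj (l' u) (l' v) := by
  intro m
  induction m with
  | zero =>
    intro β _ W l hW cW hm _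
    refine ⟨β, inferInstance, W, l, hW, cW, ?_⟩
    intro u v huv
    by_contra hcon
    have hempty : bad W T l = ∅ := by
      rw [← Set.ncard_eq_zero]
      omega
    have : (u, v) ∈ bad W T l := ⟨huv, hcon⟩
    rw [hempty] at this
    exact this
  | succ m ih =>
    intro β _ W l hW cW hm hbad
    by_cases hempty : ∀ u v, W.Adj u v → T.Adj (l u) (l v)
    · exact ⟨β, inferInstance, W, l, hW, cW, hempty⟩
    · push Not at hempty
      obtain ⟨u0, v0, h0, h0'⟩ := hempty
      -- choose the orientation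
      have hor : ∃ u v, (u, v) ∈ bad W T l ∧ l u = lX a ∧ T.Adj (lX b) (l v) := by
        rcases hbad u0 v0 ⟨h0, h0'⟩ with h | h
        · exact ⟨u0, v0, ⟨h0, h0'⟩, h⟩
        · exact ⟨v0, u0, bad_symm ⟨h0, h0'⟩, h⟩
      obtain ⟨u, v, huv, hlu, hlv⟩ := hor
      have hadj : W.Adj u v := huv.1
      have hvu : v ≠ u := hadj.ne'
      have hj : Crit q (comp X a b W u {v}) := join_crit hq hX hW hab hadj
      have cj : Cons C (comp X a b W u {v}) := Cons.join hC hX hW cX cW hab hadj
      -- labels of the join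
      let l1 : α ⊕ {x : β // x ≠ u} → γ := Sum.elim lX (fun x => l x.1)
      -- projection of bad pairs
      let g : α ⊕ {x : β // x ≠ u} → β := Sum.elim (fun _ => u) (fun x => x.1)
      -- description of the bad pairs of the join
      have hlr : ∀ p (x : {x : β // x ≠ u}),
          (Sum.inl p, Sum.inr x) ∈ bad (comp X a b W u {v}) T l1 →
          p = a ∧ (u, x.1) ∈ bad W T l ∧ x.1 ≠ v := by
        rintro p x ⟨h1, h2⟩
        rw [comp_lr] at h1
        obtain ⟨h3, ⟨rfl, h4⟩ | ⟨rfl, h4⟩⟩ := h1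
        · refine ⟨rfl, ⟨h3, ?_⟩, h4⟩
          rw [hlu]
          exact h2
        · exfalso
          apply h2
          have : x.1 = v := h4
          simp only [l1, Sum.elim_inl, Sum.elim_inr, this]
          exact hlv
      have hll : ∀ p r, (Sum.inl p, Sum.inl r) ∉ bad (comp X a b W u {v}) T l1 := by
        rintro p r ⟨h1, h2⟩
        exact h2 (hlX p r h1.1 h1.2)
      have hrr : ∀ x y : {x : β // x ≠ u},
          (Sum.inr x, Sum.inr y) ∈ bad (comp X a b W u {v}) T l1 → (x.1, y.1) ∈ bad W T l := by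
        rintro x y ⟨h1, h2⟩
        exact ⟨h1, h2⟩
      have hcase : ∀ x y, (x, y) ∈ bad (comp X a b W u {v}) T l1 →
          (g x, g y) ∈ bad W T l ∧ (g x, g y) ≠ (u, v) ∧
          (∀ p, x = Sum.inl p → p = a) ∧ (∀ p, y = Sum.inl p → p = a) := by
        rintro (p | x) (r | y) h
        · exact absurd h (hll p r)
        · obtain ⟨h1, h2, h3⟩ := hlr p y h
          refine ⟨h2, ?_, ?_, ?_⟩
          · intro h'
            simp only [g, Sum.elim_inl, Sum.elim_inr, Prod.mk.injEq] at h'
            exact h3 h'.2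
          · intro p' hp'
            rw [← Sum.inl.inj hp', h1]
          · intro p' hp'
            exact absurd hp' (by simp)
        · obtain ⟨h1, h2, h3⟩ := hlr r x (bad_symm h)
          refine ⟨bad_symm h2, ?_, ?_, ?_⟩
          · intro h'
            simp only [g, Sum.elim_inl, Sum.elim_inr, Prod.mk.injEq] at h'
            exact x.2 h'.1
          · intro p' hp'
            exact absurd hp' (by simp)
          · intro p' hp'
            rw [← Sum.inl.inj hp', h1]
        · have h2 := hrr x y h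
          refine ⟨h2, ?_, ?_, ?_⟩
          · intro h'
            simp only [g, Sum.elim_inr, Prod.mk.injEq] at h'
            exact x.2 h'.1
          · intro p' hp'
            exact absurd hp' (by simp)
          · intro p' hp'
            exact absurd hp' (by simp)
      have ginj : ∀ x x' : α ⊕ {x : β // x ≠ u}, (∀ p, x = Sum.inl p → p = a) →
          (∀ p, x' = Sum.inl p → p = a) → g x = g x' → x = x' := by
        rintro (p | x) (p' | x') h1 h2 h
        · rw [h1 p rfl, h2 p' rfl]
        · exact absurd h.symm x'.2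
        · exact absurd h x.2
        · exact congrArg _ (Subtype.ext h)
      have hcard : (bad (comp X a b W u {v}) T l1).ncard ≤ m := by
        have hinj : Set.InjOn (fun p : (α ⊕ {x : β // x ≠ u}) × (α ⊕ {x : β // x ≠ u}) =>
            (g p.1, g p.2)) (bad (comp X a b W u {v}) T l1) := by
          rintro ⟨x, y⟩ hxy ⟨x', y'⟩ hxy' h
          simp only [Prod.mk.injEq] at h
          obtain ⟨-, -, hx, hy⟩ := hcase x y hxy
          obtain ⟨-, -, hx', hy'⟩ := hcase x' y' hxy'
          rw [ginj x x' hx hx' h.1, ginj y y' hy hy' h.2]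
        rw [← Set.InjOn.ncard_image hinj]
        have hsub : (fun p : (α ⊕ {x : β // x ≠ u}) × (α ⊕ {x : β // x ≠ u}) =>
            (g p.1, g p.2)) '' (bad (comp X a b W u {v}) T l1) ⊆ bad W T l \ {(u, v)} := by
          rintro _ ⟨⟨x, y⟩, hxy, rfl⟩
          obtain ⟨h1, h2, -, -⟩ := hcase x y hxy
          exact ⟨h1, h2⟩
        have h1 := Set.ncard_le_ncard hsub
        have h2 : (bad W T l \ {(u, v)}).ncard < (bad W T l).ncard :=
          Set.ncard_sdiff_singleton_lt_of_mem huv
        omega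
      refine ih (α ⊕ {x : β // x ≠ u}) (comp X a b W u {v}) l1 hj cj hcard ?_
      have hTy : ∀ y : {x : β // x ≠ u}, (u, y.1) ∈ bad W T l → T.Adj (lX b) (l y.1) := by
        intro y h2
        rcases hbad u y.1 h2 with ⟨-, h4⟩ | ⟨h4, h5⟩
        · exact h4
        · rw [h4, ← hlu]; exact h5
      rintro (p | x) (r | y) h
      · exact absurd h (hll p r)
      · obtain ⟨h1, h2, h3⟩ := hlr p y h
        left
        exact ⟨by rw [h1]; rfl, hTy y h2⟩
      · obtain ⟨h1, h2, h3⟩ := hlr r x (bad_symm h)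
        right
        exact ⟨by rw [h1]; rfl, hTy x h2⟩
      · exact hbad x.1 y.1 (hrr x y h)

/-- The composition is constructible. -/
theorem Cons.comp_cons (hC : Closed q C) (hq : 2 ≤ q) [Finite α] [Finite β] {X : SimpleGraph α}
    {a b : α} {Y : SimpleGraph β} {w : β} {B : Set β}
    (hX : Crit q X) (hY : Crit q Y) (cX : Cons C X) (cY : Cons C Y) (hab : X.Adj a b)
    (hT : Crit q (comp X a b Y w B)) : Cons C (comp X a b Y w B) := by
  obtain ⟨δ, _, W, l, hW, cW, hl⟩ := elimJ hC hq hX cX hab (T := comp X a b Y w B) Sum.inl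
    (fun p r h1 h2 => ⟨h1, h2⟩) _ β Y (jmap a w) hY cY le_rfl (by
      rintro u v ⟨h1, h2⟩
      by_cases hu : u = w
      · have hv : v ≠ w := fun h => h1.ne (hu.trans h.symm)
        left
        subst hu
        rw [jmap_self, jmap_ne a u v hv] at *
        refine ⟨rfl, h1, Or.inr ⟨rfl, ?_⟩⟩
        by_contra hvB
        exact h2 ⟨h1, Or.inl ⟨rfl, hvB⟩⟩
      · by_cases hv : v = w
        · right
          subst hv
          rw [jmap_self, jmap_ne a v u hu] at *
          refine ⟨rfl, h1.symm, Or.inr ⟨rfl, ?_⟩⟩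
          by_contra huB
          exact h2 ⟨h1.symm, Or.inl ⟨rfl, huB⟩⟩
        · exfalso
          rw [jmap_ne a w u hu, jmap_ne a w v hv] at h2
          exact h2 h1)
  exact Cons.of_hom hC hW.nc cW hT l hl

/-- every non-`q`-colourable finite graph contains a critical subgraph. -/
theorem exists_crit (hq : 1 ≤ q) [Finite α] (Q : SimpleGraph α) (hQ : ¬ Col q Q) :
    ∃ (β : Type) (_ : Finite β) (Y : SimpleGraph β) (i : β → α), Function.Injective i ∧
      (∀ u v, Y.Adj u v → Q.Adj (i u) (i v)) ∧ Crit q Y := by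
  obtain ⟨H, ⟨hHQ, hH⟩, hmin⟩ := (Set.toFinite {H : SimpleGraph α | H ≤ Q ∧ ¬ Col q H}).exists_minimal
    ⟨Q, le_rfl, hQ⟩
  have hmin' : ∀ H' : SimpleGraph α, H' < H → Col q H' := by
    intro H' hlt
    by_contra hcon
    exact absurd (hmin ⟨hlt.le.trans hHQ, hcon⟩ hlt.le) (not_le_of_gt hlt)
  refine ⟨{v : α // ∃ u, H.Adj v u}, inferInstance, H.comap Subtype.val, Subtype.val,
    Subtype.val_injective, fun u v h => hHQ h, ?_, ?_, ?_⟩
  · rintro ⟨c, hc⟩
    apply hH
    refine ⟨fun v => if h : ∃ u, H.Adj v u then c ⟨v, h⟩ else ⟨0, hq⟩, ?_⟩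
    intro u v huv
    have h1 : ∃ w, H.Adj u w := ⟨v, huv⟩
    have h2 : ∃ w, H.Adj v w := ⟨u, huv.symm⟩
    simp only [dif_pos h1, dif_pos h2]
    exact hc ⟨u, h1⟩ ⟨v, h2⟩ huv
  · intro s t hst
    have hlt : H.deleteEdges {s(s.1, t.1)} < H := by
      refine lt_of_le_of_ne (SimpleGraph.deleteEdges_le _) ?_
      intro heq
      have h1 : H.Adj s.1 t.1 := hst
      have h2 : (H.deleteEdges {s(s.1, t.1)}).Adj s.1 t.1 := by rw [heq]; exact h1
      rw [SimpleGraph.deleteEdges_adj] at h2
      exact h2.2 rfl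
    obtain ⟨c, hc⟩ := hmin' _ hlt
    refine ⟨fun v => c v.1, ?_⟩
    intro u v huv he
    refine hc u.1 v.1 ?_
    rw [SimpleGraph.deleteEdges_adj]
    refine ⟨huv, ?_⟩
    intro h
    apply he
    have h' : s(u.1, v.1) = s(s.1, t.1) := h
    rw [Sym2.eq_iff] at h' ⊢
    rcases h' with ⟨h1, h2⟩ | ⟨h1, h2⟩
    · exact Or.inl ⟨Subtype.ext h1, Subtype.ext h2⟩
    · exact Or.inr ⟨Subtype.ext h1, Subtype.ext h2⟩
  · rintro ⟨v, u, hu⟩
    exact ⟨⟨u, v, hu.symm⟩, hu⟩

/-- the quotient graph obtained by identifying `y` with `x`. -/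
def quo (G : SimpleGraph α) (x y : α) (hn : ¬ G.Adj x y) : SimpleGraph {u : α // u ≠ y} where
  Adj u v := G.Adj u.1 v.1 ∨ (u.1 = x ∧ G.Adj y v.1) ∨ (v.1 = x ∧ G.Adj y u.1)
  symm := ⟨by
    rintro u v (h | h | h)
    · exact Or.inl h.symm
    · exact Or.inr (Or.inr h)
    · exact Or.inr (Or.inl h)⟩
  loopless := ⟨by
    rintro u (h | h | h)
    · exact G.loopless.irrefl _ h
    · exact hn (by rw [← h.1]; exact h.2.symm)
    · exact hn (by rw [← h.1]; exact h.2.symm)⟩

theorem elimMain (hC : Closed q C) (hq : 2 ≤ q) {V : Type} [Finite V] {G : SimpleGraph V}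
    (hG : Crit q G)
    (IH : ∀ (β : Type) [Finite β] (Y : SimpleGraph β), Nat.card β < Nat.card V → Crit q Y →
      Cons C Y) :
    ∀ (m : ℕ) (α : Type) [Finite α] (X : SimpleGraph α) (l : α → V), Crit q X → Cons C X →
      (bad X G l).ncard ≤ m →
      (∀ u v, (u, v) ∈ bad X G l → l u ≠ l v ∧ ∃ t, G.Adj t (l u) ∧ G.Adj t (l v)) →
      ∃ (δ : Type) (_ : Finite δ) (W : SimpleGraph δ) (l' : δ → V),
        Crit q W ∧ Cons C W ∧ ∀ u v, W.Adj u v → G.Adj (l' u) (l' v) := by
  intro m
  induction m with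
  | zero =>
    intro α _ X l hX cX hm _
    refine ⟨α, inferInstance, X, l, hX, cX, ?_⟩
    intro u v huv
    by_contra hcon
    have hempty : bad X G l = ∅ := by
      rw [← Set.ncard_eq_zero]
      omega
    have : (u, v) ∈ bad X G l := ⟨huv, hcon⟩
    rw [hempty] at this
    exact this
  | succ m ih =>
    intro α _ X l hX cX hm hbad
    by_cases hempty : ∀ u v, X.Adj u v → G.Adj (l u) (l v)
    · exact ⟨α, inferInstance, X, l, hX, cX, hempty⟩
    push Not at hempty
    obtain ⟨a, b, hab, hn⟩ := hempty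
    have habbad : (a, b) ∈ bad X G l := ⟨hab, hn⟩
    obtain ⟨hxy, t, htx, hty⟩ := hbad a b habbad
    -- the labels are x = l a and y = l b
    obtain ⟨x, hx⟩ : ∃ x, x = l a := ⟨_, rfl⟩
    obtain ⟨y, hy⟩ : ∃ y, y = l b := ⟨_, rfl⟩
    rw [← hx, ← hy] at hxy hn
    rw [← hx] at htx
    rw [← hy] at hty
    -- the quotient is not colourable
    have hquo : ¬ Col q (quo G x y hn) := by
      rintro ⟨c, hc⟩
      apply hG.nc
      refine ⟨fun u => if h : u = y then c ⟨x, hxy⟩ else c ⟨u, h⟩, ?_⟩
      intro u v huv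
      by_cases hu : u = y
      · have hv : v ≠ y := fun h => huv.ne (hu.trans h.symm)
        simp only [dif_pos hu, dif_neg hv]
        refine hc ⟨x, hxy⟩ ⟨v, hv⟩ (Or.inr (Or.inl ⟨rfl, ?_⟩))
        show G.Adj y v
        rw [← hu]; exact huv
      · by_cases hv : v = y
        · simp only [dif_pos hv, dif_neg hu]
          refine (hc ⟨u, hu⟩ ⟨x, hxy⟩ (Or.inr (Or.inr ⟨rfl, ?_⟩)))
          show G.Adj y u
          rw [← hv]; exact huv.symm
        · simp only [dif_neg hu, dif_neg hv]
          exact hc ⟨u, hu⟩ ⟨v, hv⟩ (Or.inl huv)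
    obtain ⟨β, hβ, Y, i, hi, hiY, hY⟩ := exists_crit (by omega) (quo G x y hn) hquo
    -- Y is constructible
    have hcard : Nat.card β < Nat.card V := by
      have h1 : Nat.card β ≤ Nat.card {u : V // u ≠ y} :=
        Nat.card_le_card_of_injective i hi
      have h2 : Nat.card {u : V // u ≠ y} < Nat.card V :=
        Finite.card_subtype_lt (p := fun p => p ≠ y) (x := y) (by simp)
      omega
    have cY : Cons C Y := IH β Y hcard hY
    -- the merged vertex is in Y
    have hw : ∃ w, (i w).1 = x := by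
      by_contra hcon
      push Not at hcon
      have hsurj := hom_surj hY.nc hG (fun u => (i u).1) (by
        intro u v huv
        rcases hiY u v huv with h | ⟨h, -⟩ | ⟨h, -⟩
        · exact h
        · exact absurd h (hcon u)
        · exact absurd h (hcon v))
      obtain ⟨u, hu⟩ := hsurj y
      exact (i u).2 hu
    obtain ⟨w, hw⟩ := hw
    have hiw : ∀ u, u ≠ w → (i u).1 ≠ x := by
      intro u hu h
      apply hu
      apply hi
      apply Subtype.ext
      rw [h, hw]
    let B : Set β := {u | ¬ G.Adj x (i u).1}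
    -- adjacency facts
    have f1 : ∀ u v, Y.Adj u v → u ≠ w → v ≠ w → G.Adj (i u).1 (i v).1 := by
      intro u v huv hu hv
      rcases hiY u v huv with h | ⟨h, -⟩ | ⟨h, -⟩
      · exact h
      · exact absurd h (hiw u hu)
      · exact absurd h (hiw v hv)
    have f2 : ∀ z, z ∉ B → G.Adj x (i z).1 := by
      intro z hz
      by_contra hcon
      exact hz hcon
    have f3 : ∀ z, Y.Adj w z → z ∈ B → G.Adj y (i z).1 := by
      intro z hwz hz
      rcases hiY w z hwz with h | ⟨-, h⟩ | ⟨h, -⟩
      · exfalso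
        rw [hw] at h
        exact hz h
      · exact h
      · exact absurd h (hiw z hwz.ne')
    -- colouring of the split graph
    obtain ⟨c, hc⟩ := hG.ec y t hty.symm
    have hsplit : ∃ (c : β → Fin q) (d : Fin q),
        (∀ u v, Y.Adj u v → u ≠ w → v ≠ w → c u ≠ c v) ∧
        (∀ z, Y.Adj w z → z ∉ B → c w ≠ c z) ∧ (∀ z, Y.Adj w z → z ∈ B → d ≠ c z) := by
      refine ⟨fun u => c (i u).1, c y, ?_, ?_, ?_⟩
      · intro u v huv hu hv
        refine hc _ _ (f1 u v huv hu hv) ?_
        intro h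
        rw [Sym2.eq_iff] at h
        rcases h with ⟨h, -⟩ | ⟨-, h⟩
        · exact (i u).2 h
        · exact (i v).2 h
      · intro z _ hz
        have h0 := f2 z hz
        show c (i w).1 ≠ c (i z).1
        rw [hw]
        refine hc _ _ h0 ?_
        intro h
        rw [Sym2.eq_iff] at h
        rcases h with ⟨h, -⟩ | ⟨-, h⟩
        · exact hxy h
        · exact (i z).2 h
      · intro z hwz hz
        refine hc _ _ (f3 z hwz hz) ?_
        intro h
        rw [Sym2.eq_iff] at h
        rcases h with ⟨-, h⟩ | ⟨-, h⟩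
        · apply hz
          show G.Adj x (i z).1
          rw [h]
          exact htx.symm
        · exact (i z).2 h
    have hT : Crit q (comp X a b Y w B) := comp_crit hX hY hab hsplit
    have cT : Cons C (comp X a b Y w B) := Cons.comp_cons hC hq hX hY cX cY hab hT
    let l1 : α ⊕ {u : β // u ≠ w} → V := Sum.elim l (fun u => (i u.1).1)
    have hlr : ∀ p (u : {u : β // u ≠ w}), (comp X a b Y w B).Adj (Sum.inl p) (Sum.inr u) →
        G.Adj (l p) (i u.1).1 := by
      rintro p u ⟨h1, ⟨rfl, h2⟩ | ⟨rfl, h2⟩⟩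
      · rw [← hx]; exact f2 u.1 h2
      · rw [← hy]; exact f3 u.1 h1 h2
    have hbad1 : ∀ P R, (P, R) ∈ bad (comp X a b Y w B) G l1 →
        ∃ p r, P = Sum.inl p ∧ R = Sum.inl r ∧ (p, r) ∈ bad X G l ∧ (p, r) ≠ (a, b) := by
      rintro (p | u) (r | v) ⟨h1, h2⟩
      · refine ⟨p, r, rfl, rfl, ⟨h1.1, h2⟩, ?_⟩
        intro h
        rw [Prod.mk.injEq] at h
        apply h1.2
        rw [h.1, h.2]
      · exact absurd (hlr p v h1) h2
      · exact absurd (hlr r u h1.symm).symm h2
      · exact absurd (f1 u.1 v.1 h1 u.2 v.2) h2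
    have hcard1 : (bad (comp X a b Y w B) G l1).ncard ≤ m := by
      have hsub : bad (comp X a b Y w B) G l1 ⊆
          (fun p : α × α => ((Sum.inl p.1 : α ⊕ {u : β // u ≠ w}),
            (Sum.inl p.2 : α ⊕ {u : β // u ≠ w}))) '' (bad X G l \ {(a, b)}) := by
        rintro ⟨P, R⟩ h
        obtain ⟨p, r, rfl, rfl, h1, h2⟩ := hbad1 P R h
        exact ⟨(p, r), ⟨h1, h2⟩, rfl⟩
      have h1 := Set.ncard_le_ncard hsub
      have h2 := Set.ncard_image_le (s := bad X G l \ {(a, b)})
        (f := fun p : α × α => ((Sum.inl p.1 : α ⊕ {u : β // u ≠ w}),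
            (Sum.inl p.2 : α ⊕ {u : β // u ≠ w})))
      have h3 : (bad X G l \ {(a, b)}).ncard < (bad X G l).ncard :=
        Set.ncard_sdiff_singleton_lt_of_mem habbad
      omega
    refine ih _ (comp X a b Y w B) l1 hT cT hcard1 ?_
    intro P R h
    obtain ⟨p, r, rfl, rfl, h1, -⟩ := hbad1 P R h
    exact hbad p r h1

/-- complete graphs are critical. -/
theorem top_crit (hq : 1 ≤ q) : Crit q (⊤ : SimpleGraph (Fin (q + 1))) := by
  refine ⟨?_, ?_, ?_⟩
  · rintro ⟨c, hc⟩
    have hinj : Function.Injective c := by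
      intro u v h
      by_contra hne
      exact hc u v hne h
    have := Fintype.card_le_of_injective c hinj
    simp at this
  · intro s t hst
    have hne : t ≠ s := hst.ne'
    obtain ⟨e⟩ : Nonempty ({v : Fin (q + 1) // v ≠ s} ≃ Fin q) := by
      apply Fintype.card_eq.1
      simp
    refine ⟨fun v => if h : v = s then e ⟨t, hne⟩ else e ⟨v, h⟩, ?_⟩
    intro u v huv he
    by_cases hu : u = s
    · have hv : v ≠ s := fun h => huv.ne (hu.trans h.symm)
      simp only [dif_pos hu, dif_neg hv]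
      intro h
      have h1 := congrArg Subtype.val (e.injective h)
      apply he
      rw [hu, ← show t = v from h1]
    · by_cases hv : v = s
      · simp only [dif_pos hv, dif_neg hu]
        intro h
        have h1 := congrArg Subtype.val (e.injective h)
        apply he
        rw [hv, show u = t from h1, Sym2.eq_swap]
      · simp only [dif_neg hu, dif_neg hv]
        intro h
        exact huv.ne (congrArg Subtype.val (e.injective h))
  · intro v
    have : Nontrivial (Fin (q + 1)) := Fin.nontrivial_iff_two_le.2 (by omega)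
    obtain ⟨u, hu⟩ := exists_ne v
    exact ⟨u, hu.symm⟩

/-- **Main theorem**: all critical graphs are constructible. -/
theorem main (hC : Closed q C) (hq : 1 ≤ q) : ∀ (n : ℕ) (V : Type) [Finite V]
    (G : SimpleGraph V), Nat.card V = n → Crit q G → Cons C G := by
  intro n
  induction n using Nat.strong_induction_on with
  | _ n ih =>
    intro V _ G hn hG
    -- G is nonempty
    have hne : Nonempty V := by
      by_contra hcon
      rw [not_nonempty_iff] at hcon
      exact hG.nc ⟨fun v => hcon.elim v, fun v => hcon.elim v⟩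
    obtain ⟨v⟩ := hne
    obtain ⟨v', hv'⟩ := hG.iso v
    obtain ⟨c, hc⟩ := hG.ec v v' hv'
    -- every colour appears in the neighbourhood of v
    have hcol : ∀ j : Fin q, ∃ u, G.Adj v u ∧ c u = j := by
      intro j
      by_contra hcon
      push Not at hcon
      apply hG.nc
      refine ⟨fun u => if u = v then j else c u, ?_⟩
      intro u w huw
      by_cases hu : u = v
      · have hw : w ≠ v := fun h => huw.ne (hu.trans h.symm)
        simp only [if_pos hu, if_neg hw]
        exact fun h => hcon w (by rw [← hu]; exact huw) h.symm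
      · by_cases hw : w = v
        · simp only [if_pos hw, if_neg hu]
          exact hcon u (by rw [← hw]; exact huw.symm)
        · simp only [if_neg hu, if_neg hw]
          refine hc u w huw ?_
          intro h
          rw [Sym2.eq_iff] at h
          rcases h with ⟨h, -⟩ | ⟨-, h⟩
          · exact hu h
          · exact hw h
    choose u hu hcu using hcol
    let l : Fin (q + 1) → V := Fin.cons v u
    have hl0 : l 0 = v := rfl
    have hls : ∀ j, l (Fin.succ j) = u j := fun j => rfl
    have hbad : ∀ p r, (p, r) ∈ bad (⊤ : SimpleGraph (Fin (q + 1))) G l →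
        l p ≠ l r ∧ ∃ t, G.Adj t (l p) ∧ G.Adj t (l r) := by
      rintro p r ⟨h1, h2⟩
      induction p using Fin.cases with
      | zero =>
        induction r using Fin.cases with
        | zero => exact absurd rfl h1.ne
        | succ r => exact absurd (hu r) h2
      | succ p =>
        induction r using Fin.cases with
        | zero => exact absurd (hu p).symm h2
        | succ r =>
          refine ⟨?_, v, hu p, hu r⟩
          intro h
          rw [hls, hls] at h
          have h3 : p = r := by rw [← hcu p, ← hcu r, h]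
          exact h1.ne (by rw [h3])
    have cK : Cons C (⊤ : SimpleGraph (Fin (q + 1))) :=
      ⟨q + 1, ⊤, hC.base, ⟨SimpleGraph.Iso.refl⟩⟩
    by_cases hq2 : 2 ≤ q
    · obtain ⟨δ, _, W, l', hW, cW, hl'⟩ := elimMain hC hq2 hG
        (fun β _ Y hlt hY => ih (Nat.card β) (by omega) β Y rfl hY) _ (Fin (q + 1)) ⊤ l
        (top_crit hq) cK le_rfl hbad
      exact Cons.of_hom hC hW.nc cW hG l' hl'
    · have hq1 : q = 1 := by omega
      subst hq1
      refine Cons.of_hom hC (top_crit (le_refl 1)).nc cK hG l ?_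
      intro p r hpr
      induction p using Fin.cases with
      | zero =>
        induction r using Fin.cases with
        | zero => exact absurd rfl hpr.ne
        | succ r => exact hu r
      | succ p =>
        induction r using Fin.cases with
        | zero => exact (hu p).symm
        | succ r => exact absurd (congrArg Fin.succ (Subsingleton.elim p r)) hpr.ne

/-! ### Comparison with the chromatic number -/

theorem col_iff {G : SimpleGraph α} : Col q G ↔ G.Colorable q := by
  constructor
  · rintro ⟨c, hc⟩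
    exact ⟨SimpleGraph.Coloring.mk c (fun h => hc _ _ h)⟩
  · rintro ⟨c⟩
    exact ⟨c, fun u v h => c.valid h⟩

/-- criticality as in the problem. -/
def FCrit (k : ℕ) (G : SimpleGraph α) : Prop :=
  G.chromaticNumber = (k : ℕ∞) ∧ ∀ S : G.Subgraph, S ≠ ⊤ → S.coe.chromaticNumber < (k : ℕ∞)

theorem lt_iff {G : SimpleGraph α} : G.chromaticNumber < ((q + 1 : ℕ) : ℕ∞) ↔ Col q G := by
  rw [col_iff, ← SimpleGraph.chromaticNumber_le_iff_colorable]
  rw [Nat.cast_add, Nat.cast_one]
  exact ENat.lt_add_one_iff (ENat.natCast_ne_top q)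

theorem fcrit_iff (hq : 1 ≤ q) {G : SimpleGraph α} : FCrit (q + 1) G ↔ Crit q G := by
  constructor
  · rintro ⟨h1, h2⟩
    refine ⟨?_, ?_, ?_⟩
    · intro h
      rw [← lt_iff, h1] at h
      exact lt_irrefl _ h
    · intro s t hst
      have hne : (⊤ : G.Subgraph).deleteEdges {s(s, t)} ≠ ⊤ := by
        intro h
        have h3 : ((⊤ : G.Subgraph).deleteEdges {s(s, t)}).Adj s t := by rw [h]; exact hst
        rw [SimpleGraph.Subgraph.deleteEdges_adj] at h3
        exact h3.2 rfl
      obtain ⟨c, hc⟩ := lt_iff.1 (h2 _ hne)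
      refine ⟨fun v => c ⟨v, trivial⟩, ?_⟩
      intro u v huv he
      refine hc ⟨u, trivial⟩ ⟨v, trivial⟩ ?_
      rw [SimpleGraph.Subgraph.coe_adj, SimpleGraph.Subgraph.deleteEdges_adj]
      exact ⟨huv, he⟩
    · intro v
      by_contra hcon
      push Not at hcon
      have hne : (⊤ : G.Subgraph).deleteVerts {v} ≠ ⊤ := by
        intro h
        have h3 : v ∈ ((⊤ : G.Subgraph).deleteVerts {v}).verts := by rw [h]; trivial
        rw [SimpleGraph.Subgraph.deleteVerts_verts] at h3
        exact h3.2 rfl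
      obtain ⟨c, hc⟩ := lt_iff.1 (h2 _ hne)
      have hmem : ∀ u, u ≠ v → u ∈ ((⊤ : G.Subgraph).deleteVerts {v}).verts := by
        intro u hu
        rw [SimpleGraph.Subgraph.deleteVerts_verts]
        exact ⟨trivial, hu⟩
      have : Col q G := by
        refine ⟨fun u => if h : u = v then ⟨0, hq⟩ else c ⟨u, hmem u h⟩, ?_⟩
        intro u w huw
        have hu : u ≠ v := fun h => hcon w (by rw [← h]; exact huw)
        have hw : w ≠ v := fun h => hcon u (by rw [← h]; exact huw.symm)
        simp only [dif_neg hu, dif_neg hw]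
        refine hc _ _ ?_
        rw [SimpleGraph.Subgraph.coe_adj, SimpleGraph.Subgraph.deleteVerts_adj]
        exact ⟨trivial, hu, trivial, hw, huw⟩
      rw [← lt_iff, h1] at this
      exact lt_irrefl _ this
  · intro h
    refine ⟨?_, ?_⟩
    · rw [Nat.cast_add, Nat.cast_one, SimpleGraph.chromaticNumber_eq_iff_colorable_not_colorable]
      refine ⟨?_, fun h' => h.nc (col_iff.2 h')⟩
      -- some edge exists
      have hedge : ∃ s t, G.Adj s t := by
        by_contra hcon
        push Not at hcon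
        exact h.nc ⟨fun _ => ⟨0, hq⟩, fun u v huv => absurd huv (hcon u v)⟩
      obtain ⟨s, t, hst⟩ := hedge
      obtain ⟨c, hc⟩ := h.ec s t hst
      rw [← col_iff]
      refine ⟨fun v => if v = s then Fin.last q else (c v).castSucc, ?_⟩
      intro u v huv
      by_cases hu : u = s
      · have hv : v ≠ s := fun h => huv.ne (hu.trans h.symm)
        simp only [if_pos hu, if_neg hv]
        exact (Fin.castSucc_lt_last _).ne'
      · by_cases hv : v = s
        · simp only [if_pos hv, if_neg hu]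
          exact (Fin.castSucc_lt_last _).ne
        · simp only [if_neg hu, if_neg hv]
          intro h'
          refine hc u v huv ?_ (Fin.castSucc_injective _ h')
          intro he
          rw [Sym2.eq_iff] at he
          rcases he with ⟨he, -⟩ | ⟨-, he⟩
          · exact hu he
          · exact hv he
    · intro S hS
      rw [lt_iff]
      by_cases hv : ∃ v, v ∉ S.verts
      · obtain ⟨v, hv⟩ := hv
        obtain ⟨u, hu⟩ := h.iso v
        obtain ⟨c, hc⟩ := h.ec v u hu
        refine ⟨fun x => c x.1, ?_⟩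
        intro x y hxy
        refine hc _ _ (S.adj_sub hxy) ?_
        intro he
        rw [Sym2.eq_iff] at he
        rcases he with ⟨he, -⟩ | ⟨-, he⟩
        · exact hv (he ▸ x.2)
        · exact hv (he ▸ y.2)
      · push Not at hv
        have hedge : ∃ s t, G.Adj s t ∧ ¬ S.Adj s t := by
          by_contra hcon
          push Not at hcon
          apply hS
          apply SimpleGraph.Subgraph.ext
          · ext x
            simp [hv x]
          · ext s t
            simp only [SimpleGraph.Subgraph.top_adj]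
            exact ⟨fun h' => S.adj_sub h', fun h' => hcon s t h'⟩
        obtain ⟨s, t, hst, hnst⟩ := hedge
        obtain ⟨c, hc⟩ := h.ec s t hst
        refine ⟨fun x => c x.1, ?_⟩
        intro x y hxy
        refine hc _ _ (S.adj_sub hxy) ?_
        intro he
        have hxy' : S.Adj x.1 y.1 := hxy
        rw [Sym2.eq_iff] at he
        rcases he with ⟨h3, h4⟩ | ⟨h3, h4⟩
        · rw [h3, h4] at hxy'
          exact hnst hxy'
        · rw [h3, h4] at hxy'
          exact hnst hxy'.symm

end Pool.Agent.H58.Hajos
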